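import Pool.Agent.V11230.GB3

/-!
# GlobalECC has a bicriteria (8,8)-approximation

The mistakes and the extra colours are the elements of a hitting set problem: for each node `v` and
each pair of hyperedges `e`, `f` through `v` of different colours, one of `e`, `f` is a mistake or
one of the pairs `(v, c(e))`, `(v, c(f))` is an extra colour.  The sets have four elements, so local
ratio gives a factor 4 for the sum of the weights.  The weights are `b` for the hyperedges and `t`
for the pairs, where `t` is a guess of the optimum, and the algorithm takes the smallest `t` for
which the outcome has at most `8 t` mistakes and `8 b` extra colours.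
-/

set_option autoImplicit false

namespace Pool.Agent.NPC.V11230.GBP

open Pool.Agent.NPC Pool.Agent.V11230.GB

/-- An instance of GlobalECC: a token for each node, a token for each colour, the hyperedges (the
colour and the list of the nodes of each), and the budget. -/
abbrev Inst : Type := List Unit × List Unit × Edges × ℕ

/-- the algorithm on instances -/
def algI (I : Inst) : List (List ℕ) := alg I.1.length I.2.1.length I.2.2.1 I.2.2.2

theorem poly_algI : Poly algI :=
  poly_alg (UPoly.length (Poly.fst Poly.id)) (UPoly.length (Poly.fst (Poly.snd Poly.id)))
    (Poly.fst (Poly.snd (Poly.snd Poly.id))) (Poly.snd (Poly.snd (Poly.snd Poly.id)))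

/-- the algorithm on strings -/
def algS (x : List Bool) : List Bool := bits (algI ((unbits Inst x).getD ([], [], [], 0)))

theorem polyTime_algS : PolyTime algS := by
  refine polyTime_bits (g := fun x => algI ((unbits Inst x).getD ([], [], [], 0))) ?_
  exact poly_algI.comp ((Poly.optCases (o := fun x => unbits Inst x)
    (g := fun _ => (([], [], [], 0) : Inst)) (h := fun _ I => I) poly_unbits (Poly.const _)
    (Poly.snd Poly.id)).congr fun x => by cases unbits Inst x <;> rfl)

theorem algS_bits (I : Inst) : algS (bits I) = bits (algI I) := by
  unfold algS
  rw [unbits_bits, Option.getD_some]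

end Pool.Agent.NPC.V11230.GBP

namespace Pool.Agent.Results.MP_120f76_lc.BicriteriaEight

open Pool.Agent.NPC Pool.Agent.V11230.GB Pool.Agent.NPC.V11230.GBP

/-- The nodes are `0, …, n - 1`, the colours are `0, …, q - 1` with `q ≥ 1`, and the hyperedges are
nonempty. -/
def Valid (I : Inst) : Prop := ValidE I.1.length I.2.1.length I.2.2.1

/-- `S` assigns to each node a nonempty set of colours. -/
def Assigns (I : Inst) (S : List (List ℕ)) : Prop := IsAssign I.1.length I.2.1.length S

/-- **Main theorem.** There is a polynomial-time algorithm that on each instance with budget `b`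
outputs an assignment with at most `8 b` extra colours and at most `8` times as many mistakes as any
assignment with at most `b` extra colours. -/
theorem result : ∃ A : List Bool → List Bool, PolyTime A ∧ ∀ I : Inst, Valid I →
    ∃ S : List (List ℕ), A (bits I) = bits S ∧ Assigns I S ∧ extra S ≤ 8 * I.2.2.2 ∧
      ∀ S' : List (List ℕ), Assigns I S' → extra S' ≤ I.2.2.2 →
        mistakes I.2.2.1 S ≤ 8 * mistakes I.2.2.1 S' := by
  refine ⟨algS, polyTime_algS, fun I hI => ⟨algI I, algS_bits I, ?_⟩⟩
  obtain ⟨h1, h2, h3⟩ := alg_spec (b := I.2.2.2) hI
  exact ⟨h1, h2, h3⟩

end Pool.Agent.Results.MP_120f76_lc.BicriteriaEight
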